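import Pool.Agent.HF.Stmts

/-!
# Squad HF, module NKZ: almost exactness over deep finite quotients
-/

namespace Pool.Agent.HF.H52

open Pool.Agent.Glue Pool.Agent.FB Pool.Agent.CD Pool.Agent.HF

noncomputable section

/-! ## The inversion of the group ring -/

section st

variable {P : Type} [Group P]

/-- the inversion -/
def st (a : MonoidAlgebra F2 P) : MonoidAlgebra F2 P := MonoidAlgebra.mapDomain (fun x => x⁻¹) a

theorem st_zero : st (0 : MonoidAlgebra F2 P) = 0 := MonoidAlgebra.mapDomain_zero _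

theorem st_add (a b : MonoidAlgebra F2 P) : st (a + b) = st a + st b :=
  MonoidAlgebra.mapDomain_add _ _ _

theorem st_single (g : P) (r : F2) :
    st (MonoidAlgebra.single g r) = MonoidAlgebra.single g⁻¹ r := MonoidAlgebra.mapDomain_single

theorem st_mul (a b : MonoidAlgebra F2 P) : st (a * b) = st b * st a := by
  induction a using MonoidAlgebra.induction_linear with
  | zero => rw [zero_mul, st_zero, mul_zero]
  | add x y hx hy => rw [add_mul, st_add, hx, hy, st_add, mul_add]
  | single g r =>
    induction b using MonoidAlgebra.induction_linear with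
    | zero => rw [mul_zero, st_zero, zero_mul]
    | add x y hx hy => rw [mul_add, st_add, hx, hy, st_add, add_mul]
    | single h s =>
      rw [MonoidAlgebra.single_mul_single, st_single, st_single, st_single,
        MonoidAlgebra.single_mul_single, mul_inv_rev, mul_comm r s]

theorem st_st (a : MonoidAlgebra F2 P) : st (st a) = a := by
  induction a using MonoidAlgebra.induction_linear with
  | zero => rw [st_zero, st_zero]
  | add x y hx hy => rw [st_add, st_add, hx, hy]
  | single g r => rw [st_single, st_single, inv_inv]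

theorem st_ne {a : MonoidAlgebra F2 P} (h : a ≠ 0) : st a ≠ 0 := by
  intro h0
  apply h
  rw [← st_st a, h0, st_zero]

end st

/-! ## Fractions -/

section frac

variable {P : Type} [Group P] (F : OF P)

theorem ext_apply (a : MonoidAlgebra F2 P) :
    ext F.sg a = a.coeff.sum fun g c => (c.val : F.D) * F.sg g := by
  have h1 : ext F.sg a = a.coeff.sum fun g c => c • F.sg g := by
    unfold ext
    rw [MonoidAlgebra.lift_apply]
  rw [h1]
  refine Finsupp.sum_congr fun g _ => ?_
  have h2 : ∀ c : F2, c = 0 ∨ c = 1 := by decide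
  rcases h2 (a.coeff g) with h | h
  · rw [h, zero_smul, ZMod.val_zero, Nat.cast_zero, zero_mul]
  · rw [h, one_smul]
    change _ = ((1 : ℕ) : F.D) * _
    rw [Nat.cast_one, one_mul]

theorem ext_inj {a : MonoidAlgebra F2 P} (h : ext F.sg a = 0) : a = 0 := by
  rw [ext_apply] at h
  have := F.inj a.coeff h
  ext g
  rw [this]
  rfl

theorem ext_ne {a : MonoidAlgebra F2 P} (h : a ≠ 0) : ext F.sg a ≠ 0 := fun h0 => h (ext_inj F h0)

theorem lfrac (x : F.D) : ∃ a b : MonoidAlgebra F2 P, a ≠ 0 ∧ ext F.sg a * x = ext F.sg b := by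
  obtain ⟨a, b, ha, hab⟩ := F.frac x
  refine ⟨.ofCoeff a, .ofCoeff b, ?_, ?_⟩
  · intro h
    apply ha
    have := congrArg MonoidAlgebra.coeff h
    exact this
  · rw [ext_apply, ext_apply]
    exact hab

theorem rfrac (x : F.D) : ∃ a b : MonoidAlgebra F2 P, a ≠ 0 ∧ x * ext F.sg a = ext F.sg b := by
  obtain ⟨a, b, ha, hab⟩ := lfrac F x
  obtain ⟨p, q, hp, hpq⟩ := lfrac F (ext F.sg (st b) * (ext F.sg (st a))⁻¹)
  have h1 : p * st b = q * st a := by
    have h2 : ext F.sg (p * st b - q * st a) = 0 := by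
      rw [map_sub, map_mul, map_mul, ← hpq, mul_assoc, mul_assoc,
        inv_mul_cancel₀ (ext_ne F (st_ne ha)), mul_one, sub_self]
    exact sub_eq_zero.1 (ext_inj F h2)
  have h3 : b * st p = a * st q := by
    have := congrArg st h1
    rwa [st_mul, st_mul, st_st, st_st] at this
  refine ⟨st p, st q, st_ne hp, ?_⟩
  have h4 : ext F.sg a * (x * ext F.sg (st p)) = ext F.sg a * ext F.sg (st q) := by
    rw [← mul_assoc, hab, ← map_mul, h3, map_mul]
  exact mul_left_cancel₀ (ext_ne F ha) h4

theorem lden {α : Type} (s : Finset α) (x : α → F.D) :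
    ∃ a : MonoidAlgebra F2 P, a ≠ 0 ∧ ∀ i ∈ s, ∃ b, ext F.sg a * x i = ext F.sg b := by
  classical
  induction s using Finset.induction_on with
  | empty =>
    refine ⟨1, ?_, fun i hi => absurd hi (Finset.notMem_empty i)⟩
    intro h
    have h1 := congrArg (ext F.sg) h
    rw [map_one, map_zero] at h1
    exact one_ne_zero h1
  | insert j s _ ih =>
    obtain ⟨a, ha, hs⟩ := ih
    obtain ⟨c, b, hc, hcb⟩ := lfrac F (ext F.sg a * x j)
    refine ⟨c * a, ?_, ?_⟩
    · intro h
      have h1 := congrArg (ext F.sg) h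
      rw [map_mul, map_zero] at h1
      exact mul_ne_zero (ext_ne F hc) (ext_ne F ha) h1
    · intro i hi
      rcases Finset.mem_insert.1 hi with rfl | hi
      · exact ⟨b, by rw [map_mul, mul_assoc, hcb]⟩
      · obtain ⟨b', hb'⟩ := hs i hi
        exact ⟨c * b', by rw [map_mul, mul_assoc, hb', map_mul]⟩

theorem rden {α : Type} (s : Finset α) (x : α → F.D) :
    ∃ a : MonoidAlgebra F2 P, a ≠ 0 ∧ ∀ i ∈ s, ∃ b, x i * ext F.sg a = ext F.sg b := by
  classical
  induction s using Finset.induction_on with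
  | empty =>
    refine ⟨1, ?_, fun i hi => absurd hi (Finset.notMem_empty i)⟩
    intro h
    have h1 := congrArg (ext F.sg) h
    rw [map_one, map_zero] at h1
    exact one_ne_zero h1
  | insert j s _ ih =>
    obtain ⟨a, ha, hs⟩ := ih
    obtain ⟨c, b, hc, hcb⟩ := rfrac F (x j * ext F.sg a)
    refine ⟨a * c, ?_, ?_⟩
    · intro h
      have h1 := congrArg (ext F.sg) h
      rw [map_mul, map_zero] at h1
      exact mul_ne_zero (ext_ne F ha) (ext_ne F hc) h1
    · intro i hi
      rcases Finset.mem_insert.1 hi with rfl | hi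
      · exact ⟨b, by rw [map_mul, ← mul_assoc, hcb]⟩
      · obtain ⟨b', hb'⟩ := hs i hi
        exact ⟨b' * c, by rw [map_mul, ← mul_assoc, hb', map_mul]⟩

end frac

/-! ## The matrix identity over the group ring -/

section ident

variable {G P : Type} [Group G] [Group P] (π : G →* P) {I : Type} [Fintype I] (C : Cells G I)

/-- The matrix of the coboundary over the group ring of the quotient. -/
def Dm (i j : I) : MonoidAlgebra F2 P :=
  (C.bd i j).coeff.sum fun h c => MonoidAlgebra.single (π h) (c : F2)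

theorem ext_single {D : Type} [DivisionRing D] [Algebra F2 D] (sg : P →* D) (g : P) (c : F2) :
    ext sg (MonoidAlgebra.single g c) = c • sg g := by
  unfold ext
  rw [MonoidAlgebra.lift_single]

theorem delta_eq' (F : OF P) (f : I → F.D) (i : I) :
    delta C (lm (F.sg.comp π)) f i = ∑ j, ext F.sg (Dm π C i j) * f j := by
  change ∑ j, (C.bd i j).coeff.sum (fun h c => (c : F2) • lm (F.sg.comp π) h (f j)) = _
  refine Finset.sum_congr rfl fun j _ => ?_
  rw [Dm, map_finsuppSum, Finsupp.sum_mul]
  refine Finsupp.sum_congr fun h _ => ?_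
  rw [ext_single, smul_mul_assoc]
  rfl

theorem ident (F : OF P) (n : ℕ) (hC : CohV C (lm (F.sg.comp π)) n) (hS : SplStmt)
    [DecidableEq I] :
    ∃ (β γ : MonoidAlgebra F2 P) (A B : I → I → MonoidAlgebra F2 P), β ≠ 0 ∧ γ ≠ 0 ∧
      (∀ j i, C.deg j + 1 ≠ n → A j i = 0) ∧
      ∀ i, C.deg i = n → ∀ k, ∑ j, γ * Dm π C k j * A j i + ∑ j, B k j * Dm π C j i * β =
        if k = i then γ * β else 0 := by
  obtain ⟨A, B, hA, hAB⟩ := hS G F.D (F.sg.comp π) I C n hC
  obtain ⟨β, hβ, hβA⟩ := rden F Finset.univ (fun p : I × I => A p.1 p.2)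
  obtain ⟨γ, hγ, hγB⟩ := lden F Finset.univ (fun p : I × I => B p.1 p.2)
  choose A' hA' using fun j i => hβA (j, i) (Finset.mem_univ _)
  choose B' hB' using fun j i => hγB (j, i) (Finset.mem_univ _)
  refine ⟨β, γ, A', B', hβ, hγ, ?_, ?_⟩
  · intro j i hj
    apply ext_inj F
    rw [← hA' j i, hA j i hj, zero_mul]
  · intro i hi k
    have h1 := congrFun (hAB (Pi.single i (ext F.sg β)) (by
      intro l hl
      rw [Pi.single_eq_of_ne]
      rintro rfl
      exact hl hi)) k
    rw [Pi.add_apply, delta_eq'] at h1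
    have h2 : ∀ j, A.mulVec (Pi.single i (ext F.sg β)) j = ext F.sg (A' j i) := by
      intro j
      rw [Matrix.mulVec, dotProduct, Finset.sum_eq_single i]
      · rw [Pi.single_eq_same]
        exact hA' j i
      · intro l _ hl
        rw [Pi.single_eq_of_ne hl, mul_zero]
      · intro h
        exact absurd (Finset.mem_univ _) h
    have h3 : ∀ j, delta C (lm (F.sg.comp π)) (Pi.single i (ext F.sg β)) j =
        ext F.sg (Dm π C j i) * ext F.sg β := by
      intro j
      rw [delta_eq', Finset.sum_eq_single i]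
      · rw [Pi.single_eq_same]
      · intro l _ hl
        rw [Pi.single_eq_of_ne hl, mul_zero]
      · intro h
        exact absurd (Finset.mem_univ _) h
    have e1 : ∑ j, ext F.sg (Dm π C k j) * A.mulVec (Pi.single i (ext F.sg β)) j =
        ∑ j, ext F.sg (Dm π C k j) * ext F.sg (A' j i) :=
      Finset.sum_congr rfl fun j _ => by rw [h2 j]
    have e2 : B.mulVec (delta C (lm (F.sg.comp π)) (Pi.single i (ext F.sg β))) k =
        ∑ j, B k j * (ext F.sg (Dm π C j i) * ext F.sg β) :=
      Finset.sum_congr rfl fun j _ => by rw [h3 j]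
    rw [e1, e2] at h1
    have h4 := congrArg (fun z => ext F.sg γ * z) h1
    apply sub_eq_zero.1
    apply ext_inj F
    rw [map_sub, sub_eq_zero, map_add, map_sum, map_sum]
    change ext F.sg γ * _ = ext F.sg γ * _ at h4
    rw [mul_add, Finset.mul_sum, Finset.mul_sum] at h4
    have h5 : ∑ j, ext F.sg (γ * Dm π C k j * A' j i) =
        ∑ j, ext F.sg γ * (ext F.sg (Dm π C k j) * ext F.sg (A' j i)) := by
      refine Finset.sum_congr rfl fun j _ => ?_
      rw [map_mul, map_mul, mul_assoc]
    have h6 : ∑ j, ext F.sg (B' k j * Dm π C j i * β) =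
        ∑ j, ext F.sg γ * (B k j * (ext F.sg (Dm π C j i) * ext F.sg β)) := by
      refine Finset.sum_congr rfl fun j _ => ?_
      have h7 : ext F.sg γ * B k j = ext F.sg (B' k j) := hB' k j
      rw [map_mul, map_mul, ← h7, mul_assoc, mul_assoc]
    rw [h5, h6, h4]
    by_cases hk : k = i
    · subst hk
      rw [Pi.single_eq_same, if_pos rfl, map_mul]
    · rw [Pi.single_eq_of_ne hk, if_neg hk, mul_zero, map_zero]

end ident

/-! ## Linear algebra over a finite-dimensional algebra -/

section lin

variable {S : Type} [Ring S] [Algebra F2 S] {I : Type} [Fintype I]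

/-- multiplication by a matrix -/
def mvl (A : I → I → S) : (I → S) →ₗ[F2] (I → S) where
  toFun x := fun i => ∑ j, A i j * x j
  map_add' x y := by
    funext i
    rw [Pi.add_apply, ← Finset.sum_add_distrib]
    exact Finset.sum_congr rfl fun j _ => by rw [Pi.add_apply, mul_add]
  map_smul' c x := by
    funext i
    rw [RingHom.id_apply, Pi.smul_apply, Finset.smul_sum]
    exact Finset.sum_congr rfl fun j _ => by rw [Pi.smul_apply, mul_smul_comm]

/-- componentwise left multiplication -/
def cml (I : Type) (b : S) : (I → S) →ₗ[F2] (I → S) where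
  toFun x := fun i => b * x i
  map_add' x y := by
    funext i
    rw [Pi.add_apply, Pi.add_apply, mul_add]
  map_smul' c x := by
    funext i
    rw [RingHom.id_apply, Pi.smul_apply, Pi.smul_apply, mul_smul_comm]

/-- functions that vanish outside a set of indices -/
def sp (S : Type) [Ring S] [Algebra F2 S] {I : Type} (p : I → Prop) : Submodule F2 (I → S) where
  carrier := {f | ∀ i, ¬ p i → f i = 0}
  add_mem' := by
    intro f g hf hg i hi
    rw [Pi.add_apply, hf i hi, hg i hi, add_zero]
  zero_mem' := fun _ _ => rfl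
  smul_mem' := by
    intro r f hf i hi
    rw [Pi.smul_apply, hf i hi, smul_zero]

theorem finrank_ker_cml [Module.Finite F2 S] (b : S) :
    Module.finrank F2 (LinearMap.ker (cml I b)) ≤
      Fintype.card I * Module.finrank F2 (LinearMap.ker (LinearMap.mulLeft F2 b)) := by
  let φ : LinearMap.ker (cml I b) →ₗ[F2] (I → LinearMap.ker (LinearMap.mulLeft F2 b)) :=
    { toFun := fun x i => ⟨(x : I → S) i, congrFun x.2 i⟩
      map_add' := fun _ _ => rfl
      map_smul' := fun _ _ => rfl }
  have hφ : Function.Injective φ := by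
    intro x y hxy
    apply Subtype.ext
    funext i
    exact congrArg Subtype.val (congrFun hxy i)
  have h1 := LinearMap.finrank_le_finrank_of_injective hφ
  rwa [Module.finrank_pi_fintype, Finset.sum_const, Finset.card_univ, smul_eq_mul] at h1

theorem fr_map {V W : Type} [AddCommGroup V] [Module F2 V] [Module.Finite F2 V] [AddCommGroup W]
    [Module F2 W] (q : V →ₗ[F2] W) (Z : Submodule F2 V) :
    Module.finrank F2 (Z.map q) + Module.finrank F2 (Z ⊓ LinearMap.ker q : Submodule F2 V) =
      Module.finrank F2 Z := by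
  have h1 := LinearMap.finrank_range_add_finrank_ker (q.domRestrict Z)
  rw [LinearMap.range_domRestrict] at h1
  have h2 : Module.finrank F2 (LinearMap.ker (q.domRestrict Z)) =
      Module.finrank F2 (Z ⊓ LinearMap.ker q : Submodule F2 V) := by
    rw [← Submodule.map_comap_subtype, Submodule.finrank_map_subtype_eq]
    rfl
  rw [← h2]
  exact h1

theorem lin [Module.Finite F2 S] [DecidableEq I] (deg : I → ℕ) (n : ℕ) (Δ A B : I → I → S)
    (β γ : S) (hA : ∀ j i, deg j + 1 ≠ n → A j i = 0)
    (h : ∀ i, deg i = n → ∀ k, ∑ j, γ * Δ k j * A j i + ∑ j, B k j * Δ j i * β =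
      if k = i then γ * β else 0) :
    Module.finrank F2 ((sp S (fun i => deg i = n) ⊓ LinearMap.ker (mvl Δ)).map
      ((sp S (fun i => deg i + 1 = n)).map (mvl Δ)).mkQ) ≤
      Fintype.card I * (Module.finrank F2 (LinearMap.ker (LinearMap.mulLeft F2 β)) +
        Module.finrank F2 (LinearMap.ker (LinearMap.mulLeft F2 γ))) := by
  set N : Submodule F2 (I → S) := sp S (fun i => deg i = n) with hN
  set Z : Submodule F2 (I → S) := N ⊓ LinearMap.ker (mvl Δ) with hZ
  set Bd : Submodule F2 (I → S) := (sp S (fun i => deg i + 1 = n)).map (mvl Δ) with hBd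
  set X : Submodule F2 (I → S) := N.map (cml I β) with hX
  set Y : Submodule F2 (I → S) := Z ⊓ X with hY
  -- the identity
  have key : ∀ g ∈ N, cml I γ (mvl Δ (mvl A g)) + mvl B (mvl Δ (cml I β g)) =
      cml I γ (cml I β g) := by
    intro g hg
    funext k
    change γ * (∑ j, Δ k j * ∑ i, A j i * g i) + ∑ j, B k j * ∑ i, Δ j i * (β * g i) =
      γ * (β * g k)
    have e1 : γ * (∑ j, Δ k j * ∑ i, A j i * g i) =
        ∑ i, (∑ j, γ * Δ k j * A j i) * g i := by
      simp only [Finset.mul_sum, Finset.sum_mul]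
      rw [Finset.sum_comm]
      refine Finset.sum_congr rfl fun i _ => Finset.sum_congr rfl fun j _ => ?_
      simp only [mul_assoc]
    have e2 : ∑ j, B k j * ∑ i, Δ j i * (β * g i) = ∑ i, (∑ j, B k j * Δ j i * β) * g i := by
      simp only [Finset.mul_sum, Finset.sum_mul]
      rw [Finset.sum_comm]
      refine Finset.sum_congr rfl fun i _ => Finset.sum_congr rfl fun j _ => ?_
      simp only [mul_assoc]
    rw [e1, e2, ← Finset.sum_add_distrib]
    have e3 : ∀ i, (∑ j, γ * Δ k j * A j i) * g i + (∑ j, B k j * Δ j i * β) * g i =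
        if k = i then γ * (β * g i) else 0 := by
      intro i
      by_cases hi : deg i = n
      · rw [← add_mul, h i hi k]
        split_ifs
        · rw [mul_assoc]
        · rw [zero_mul]
      · rw [hg i hi]
        simp
    rw [Finset.sum_congr rfl fun i _ => e3 i, Finset.sum_ite_eq, if_pos (Finset.mem_univ k)]
  have hYle : Y ≤ Bd ⊔ LinearMap.ker (cml I γ) := by
    rintro y ⟨hyZ, g, hg, rfl⟩
    have h1 := key g hg
    have h2 : mvl Δ (cml I β g) = 0 := hyZ.2
    rw [h2, map_zero, add_zero] at h1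
    have h3 : cml I β g = mvl Δ (mvl A g) + (cml I β g - mvl Δ (mvl A g)) := by abel
    rw [h3]
    refine Submodule.add_mem_sup ⟨mvl A g, ?_, rfl⟩ ?_
    · intro j hj
      change ∑ i, A j i * g i = 0
      exact Finset.sum_eq_zero fun i _ => by rw [hA j i hj, zero_mul]
    · rw [LinearMap.mem_ker, map_sub, h1, sub_self]
  have a1 : Module.finrank F2 (Y.map Bd.mkQ) ≤ Module.finrank F2 (LinearMap.ker (cml I γ)) := by
    have h1 : Y.map Bd.mkQ ≤ (LinearMap.ker (cml I γ)).map Bd.mkQ := by
      refine (Submodule.map_mono hYle).trans ?_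
      rw [Submodule.map_sup, Submodule.mkQ_map_self, bot_sup_eq]
    exact (Submodule.finrank_mono h1).trans (Submodule.finrank_map_le _ _)
  have a2 := fr_map Bd.mkQ Z
  have a3 := fr_map Bd.mkQ Y
  have a4 : Module.finrank F2 (Y ⊓ LinearMap.ker Bd.mkQ : Submodule F2 (I → S)) ≤
      Module.finrank F2 (Z ⊓ LinearMap.ker Bd.mkQ : Submodule F2 (I → S)) :=
    Submodule.finrank_mono (inf_le_inf_right _ inf_le_left)
  have a5 := Submodule.finrank_sup_add_finrank_inf_eq Z X
  have a6 : Module.finrank F2 (Z ⊔ X : Submodule F2 (I → S)) ≤ Module.finrank F2 N := by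
    apply Submodule.finrank_mono
    refine sup_le inf_le_left ?_
    rintro _ ⟨g, hg, rfl⟩ i hi
    change β * g i = 0
    rw [hg i hi, mul_zero]
  have a7 := fr_map (cml I β) N
  have a8 : Module.finrank F2 (N ⊓ LinearMap.ker (cml I β) : Submodule F2 (I → S)) ≤
      Module.finrank F2 (LinearMap.ker (cml I β)) := Submodule.finrank_mono inf_le_right
  have a9 := finrank_ker_cml (I := I) β
  have a10 := finrank_ker_cml (I := I) γ
  rw [← hX] at a7
  rw [← hY] at a5
  rw [mul_add]
  omega

end lin

/-! ## Transport to the cochains on the covering -/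

section trans

variable {G P : Type} [Group G] [Group P] (π : G →* P) {I : Type} [Fintype I] (C : Cells G I)
  (M : Subgroup P) [M.Normal]

/-- the quotient map -/
def qm : G →* P ⧸ M := (QuotientGroup.mk' M).comp π

/-- the reduction -/
def rd : MonoidAlgebra F2 P →+* MonoidAlgebra F2 (P ⧸ M) :=
  MonoidAlgebra.mapDomainRingHom F2 (QuotientGroup.mk' M)

theorem rd_eq (a : MonoidAlgebra F2 P) : rd M a = red M a := rfl

theorem rd_single (g : P) (c : F2) : rd M (MonoidAlgebra.single g c) =
    MonoidAlgebra.single (QuotientGroup.mk' M g) c := MonoidAlgebra.mapDomain_single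

/-- the cochain of a vector over the group ring of the quotient -/
def Em : (I → MonoidAlgebra F2 (P ⧸ M)) →ₗ[F2] (G × I → F2) where
  toFun x := fun p => (x p.2).coeff (qm π M p.1)⁻¹
  map_add' _ _ := rfl
  map_smul' _ _ := rfl

theorem Em_apply (x : I → MonoidAlgebra F2 (P ⧸ M)) (g : G) (i : I) :
    Em π M x (g, i) = (x i).coeff (qm π M g)⁻¹ := rfl

/-- evaluation at a group element -/
def evc {Q : Type} [Group Q] (q : Q) : MonoidAlgebra F2 Q →+ F2 where
  toFun x := x.coeff q
  map_zero' := rfl
  map_add' _ _ := rfl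

theorem evc_single_mul {Q : Type} [Group Q] (q k : Q) (c : F2) (y : MonoidAlgebra F2 Q) :
    evc q (MonoidAlgebra.single k c * y) = c * y.coeff (k⁻¹ * q) := by
  change (MonoidAlgebra.single k c * y).coeff q = _
  rw [MonoidAlgebra.coeff_single_mul_eq_mul_coeff (k⁻¹ * q)]
  intro m _
  constructor
  · rintro rfl
    group
  · rintro rfl
    group

theorem cob_Em (x : I → MonoidAlgebra F2 (P ⧸ M)) :
    cob F2 C F2 (Em π M x) = Em π M (mvl (fun i j => rd M (Dm π C i j)) x) := by
  funext p
  obtain ⟨g, i⟩ := p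
  rw [Em_apply]
  change ∑ j, (C.bd i j).coeff.sum (fun h a => a • Em π M x (g * h, j)) =
    evc (qm π M g)⁻¹ (∑ j, rd M (Dm π C i j) * x j)
  rw [map_sum]
  refine Finset.sum_congr rfl fun j _ => ?_
  rw [Dm, map_finsuppSum, Finsupp.sum_mul, map_finsuppSum]
  refine Finsupp.sum_congr fun h _ => ?_
  rw [rd_single, evc_single_mul, Em_apply, zsmul_eq_mul, map_mul, mul_inv_rev]
  rfl

end trans

theorem nkz (hS : SplStmt) (hF : PzfStmt) : NkzStmt := by
  intro G _ P _ π hπ hP F I _ C n hC ε hε
  classical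
  obtain ⟨β, γ, A, B, hβ, hγ, hA, hid⟩ := ident π C F n hC hS
  set c : ℝ := 2 * (Fintype.card I + 1) with hc
  have hcpos : 0 < c := by positivity
  obtain ⟨M₁, hM₁, h1⟩ := hF P hP β hβ (ε / c) (by positivity)
  obtain ⟨M₂, hM₂, h2⟩ := hF P hP γ hγ (ε / c) (by positivity)
  refine ⟨M₁ ⊓ M₂, inferInstance, ?_⟩
  intro M hM hMf hle
  have b1 := (h1 M hM hMf (hle.trans inf_le_left)).1
  have b2 := (h2 M hM hMf (hle.trans inf_le_right)).1
  have hfin : Finite (P ⧸ M) := Subgroup.finite_quotient_of_finiteIndex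
  -- the identity over the quotient
  have hid' : ∀ i, C.deg i = n → ∀ k,
      ∑ j, rd M γ * rd M (Dm π C k j) * rd M (A j i) +
        ∑ j, rd M (B k j) * rd M (Dm π C j i) * rd M β = if k = i then rd M γ * rd M β else 0 := by
    intro i hi k
    have h3 := congrArg (rd M) (hid i hi k)
    rw [map_add, map_sum, map_sum] at h3
    simp only [map_mul] at h3
    rw [h3]
    split_ifs
    · rw [map_mul]
    · rw [map_zero]
  have hlin := lin C.deg n (fun i j => rd M (Dm π C i j)) (fun i j => rd M (A i j))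
    (fun i j => rd M (B i j)) (rd M β) (rd M γ) (fun j i hj => by rw [hA j i hj, map_zero]) hid'
  set N : Submodule F2 (I → MonoidAlgebra F2 (P ⧸ M)) :=
    sp (MonoidAlgebra F2 (P ⧸ M)) (fun i => C.deg i = n) with hN
  set Δ := mvl (fun i j => rd M (Dm π C i j)) with hΔ
  set Z : Submodule F2 (I → MonoidAlgebra F2 (P ⧸ M)) := N ⊓ LinearMap.ker Δ with hZ
  set Bd : Submodule F2 (I → MonoidAlgebra F2 (P ⧸ M)) :=
    (sp (MonoidAlgebra F2 (P ⧸ M)) (fun i => C.deg i + 1 = n)).map Δ with hBd
  have hsurj : ∀ q : P ⧸ M, ∃ g : G, qm π M g = q := by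
    intro q
    obtain ⟨p, rfl⟩ := QuotientGroup.mk'_surjective M q
    obtain ⟨g, rfl⟩ := hπ p
    exact ⟨g, rfl⟩
  choose lift hlift using hsurj
  have hE : Function.Injective (Em (I := I) π M) := by
    rw [← LinearMap.ker_eq_bot, LinearMap.ker_eq_bot']
    intro x hx
    funext i
    ext q
    have h3 := congrFun hx (lift q⁻¹, i)
    rw [Em_apply, hlift, inv_inv] at h3
    exact h3
  have hinv : ∀ g : G, g ∈ M.comap π ↔ qm π M g = 1 := by
    intro g
    rw [Subgroup.mem_comap]
    exact (QuotientGroup.eq_one_iff (π g)).symm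
  -- the cocycles
  have hZq : Zq F2 C (M.comap π) n ≤ Z.map (Em π M) := by
    rintro f ⟨⟨hf1, hf2⟩, hf3⟩
    have hf4 : ∀ g g' i, qm π M g = qm π M g' → f (g, i) = f (g', i) := by
      intro g g' i h
      have h3 : g' * g⁻¹ ∈ M.comap π := by
        rw [hinv, map_mul, map_inv, h, mul_inv_cancel]
      have h4 := hf1 _ h3 g i
      rw [inv_mul_cancel_right] at h4
      exact h4.symm
    let x : I → MonoidAlgebra F2 (P ⧸ M) := fun i =>
      .ofCoeff (Finsupp.equivFunOnFinite.symm fun q => f (lift q⁻¹, i))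
    have hx : Em π M x = f := by
      funext p
      obtain ⟨g, i⟩ := p
      rw [Em_apply]
      change f (lift ((qm π M g)⁻¹)⁻¹, i) = f (g, i)
      apply hf4
      rw [hlift, inv_inv]
    refine ⟨x, ⟨?_, ?_⟩, hx⟩
    · intro i hi
      ext q
      change f (lift q⁻¹, i) = 0
      apply hf2
      exact_mod_cast hi
    · rw [SetLike.mem_coe, LinearMap.mem_ker]
      apply hE
      rw [hΔ, ← cob_Em, hx, map_zero]
      exact hf3
  have hBq : Bd.map (Em π M) ≤ Bq F2 C (M.comap π) n := by
    rintro _ ⟨_, ⟨y, hy, rfl⟩, rfl⟩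
    refine ⟨Em π M y, ⟨?_, ?_⟩, ?_⟩
    · intro s hs g i
      rw [Em_apply, Em_apply, map_mul, (hinv s).1 hs, one_mul]
    · intro g i hi
      rw [Em_apply, hy i]
      · rfl
      · intro h3
        apply hi
        rw [← h3]
        push_cast
        ring
    · exact cob_Em π C M y
  -- comparison
  have hcmp : hd F2 C (M.comap π) n ≤ Module.finrank F2 (Z.map Bd.mkQ) := by
    unfold hd
    have h3 : (Zq F2 C (M.comap π) n).map (Bq F2 C (M.comap π) n).mkQ ≤
        (Z.map Bd.mkQ).map (Submodule.mapQ Bd (Bq F2 C (M.comap π) n) (Em π M)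
          (Submodule.map_le_iff_le_comap.1 hBq)) := by
      rw [← Submodule.map_comp]
      refine (Submodule.map_mono hZq).trans ?_
      rw [← Submodule.map_comp]
      apply le_of_eq
      rfl
    exact (Submodule.finrank_mono h3).trans (Submodule.finrank_map_le _ _)
  have h5 : (hd F2 C (M.comap π) n : ℝ) ≤ Fintype.card I *
      ((Module.finrank F2 (LinearMap.ker (LinearMap.mulLeft F2 (rd M β))) : ℝ) +
        Module.finrank F2 (LinearMap.ker (LinearMap.mulLeft F2 (rd M γ)))) := by
    exact_mod_cast hcmp.trans hlin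
  rw [rd_eq, rd_eq] at h5
  refine h5.trans ?_
  have h6 : (Fintype.card I : ℝ) *
      ((Module.finrank F2 (LinearMap.ker (LinearMap.mulLeft F2 (red M β))) : ℝ) +
        Module.finrank F2 (LinearMap.ker (LinearMap.mulLeft F2 (red M γ)))) ≤
      Fintype.card I * (ε / c * M.index + ε / c * M.index) :=
    mul_le_mul_of_nonneg_left (add_le_add b1 b2) (Nat.cast_nonneg _)
  refine h6.trans ?_
  have h7 : (Fintype.card I : ℝ) * (ε / c * M.index + ε / c * M.index) =
      (2 * Fintype.card I / c) * (ε * M.index) := by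
    ring
  rw [h7]
  have h8 : (2 * Fintype.card I / c : ℝ) ≤ 1 := by
    rw [div_le_one hcpos, hc]
    linarith
  exact mul_le_of_le_one_left (by positivity) h8

end

end Pool.Agent.HF.H52
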