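import Pool.Agent.HF.Stmts

/-!
# Squad HF, module SPL: exactness over a skew field gives contracting matrices
-/

namespace Pool.Agent.HF.H52

open Pool.Agent.Glue Pool.Agent.FB Pool.Agent.CD Pool.Agent.HF

noncomputable section

section mat

variable {D : Type} [DivisionRing D] {I : Type} [Fintype I] [DecidableEq I]

/-- the matrix of a linear map of right vector spaces -/
def mat (φ : (I → D) →ₗ[Dᵐᵒᵖ] (I → D)) : Matrix I I D := fun j i => φ (Pi.single i 1) j

theorem mat_mulVec (φ : (I → D) →ₗ[Dᵐᵒᵖ] (I → D)) (f : I → D) : (mat φ).mulVec f = φ f := by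
  have h1 : f = ∑ i, MulOpposite.op (f i) • (Pi.single i (1 : D) : I → D) := by
    funext j
    rw [Finset.sum_apply, Finset.sum_eq_single j]
    · rw [Pi.smul_apply, Pi.single_eq_same, op_smul_eq_mul, one_mul]
    · intro i _ hij
      rw [Pi.smul_apply, Pi.single_eq_of_ne hij.symm, smul_zero]
    · intro h
      exact absurd (Finset.mem_univ j) h
  conv_rhs => rw [h1, map_sum]
  funext j
  rw [Finset.sum_apply, Matrix.mulVec, dotProduct]
  refine Finset.sum_congr rfl fun i _ => ?_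
  rw [map_smul, Pi.smul_apply, op_smul_eq_mul]
  rfl

end mat

section

variable {G D : Type} [Group G] [DivisionRing D] [Algebra F2 D] (sg : G →* D) {I : Type}
  [Fintype I] (C : Cells G I)

theorem delta_smul (r : Dᵐᵒᵖ) (f : I → D) :
    delta C (lm sg) (r • f) = r • delta C (lm sg) f := by
  funext i
  change ∑ j, (C.bd i j).coeff.sum (fun h c => (c : F2) • lm sg h ((r • f) j)) =
    r • ∑ j, (C.bd i j).coeff.sum (fun h c => (c : F2) • lm sg h (f j))
  rw [Finset.smul_sum]
  refine Finset.sum_congr rfl fun j _ => ?_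
  rw [Finsupp.smul_sum]
  refine Finsupp.sum_congr fun h _ => ?_
  rw [Pi.smul_apply, smul_comm r]
  congr 1
  change sg h * (r • f j) = r • (sg h * f j)
  rw [mul_smul_comm]

/-- the coboundary as a map of right vector spaces -/
def dl : (I → D) →ₗ[Dᵐᵒᵖ] (I → D) where
  toFun := delta C (lm sg)
  map_add' := (delta C (lm sg)).map_add
  map_smul' r f := delta_smul sg C r f

/-- functions that vanish outside a set of indices -/
def sup (D : Type) [DivisionRing D] {I : Type} (p : I → Prop) : Submodule Dᵐᵒᵖ (I → D) where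
  carrier := {f | ∀ i, ¬ p i → f i = 0}
  add_mem' := by
    intro f g hf hg i hi
    rw [Pi.add_apply, hf i hi, hg i hi, add_zero]
  zero_mem' := fun _ _ => rfl
  smul_mem' := by
    intro r f hf i hi
    rw [Pi.smul_apply, hf i hi, smul_zero]

end

theorem spl : SplStmt := by
  intro G D _ _ _ sg I _ C n hC
  classical
  let δ : (I → D) →ₗ[Dᵐᵒᵖ] (I → D) := dl sg C
  let Vn : Submodule Dᵐᵒᵖ (I → D) := sup D fun i => C.deg i = n
  let Vm : Submodule Dᵐᵒᵖ (I → D) := sup D fun i => C.deg i + 1 = n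
  let K : Submodule Dᵐᵒᵖ (I → D) := Vn ⊓ LinearMap.ker δ
  -- projection on the cocycles
  obtain ⟨p, hp⟩ := LinearMap.exists_leftInverse_of_injective K.subtype (by
    rw [LinearMap.ker_eq_bot]
    exact Subtype.val_injective)
  -- section of the coboundary
  let T : Submodule Dᵐᵒᵖ (I → D) := Vm ⊓ K.comap δ
  let d : T →ₗ[Dᵐᵒᵖ] K := (δ.comp T.subtype).codRestrict K (fun x => x.2.2)
  have hd : Function.Surjective d := by
    rintro ⟨f, hf, hf'⟩
    obtain ⟨g, hg, hg'⟩ := hC f hf hf'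
    refine ⟨⟨g, hg, ?_⟩, Subtype.ext hg'⟩
    change δ g ∈ K
    have : δ g = f := hg'
    rw [this]
    exact ⟨hf, hf'⟩
  obtain ⟨s, hs⟩ := d.exists_rightInverse_of_surjective (LinearMap.range_eq_top.2 hd)
  -- the second map
  let δ' : Vn →ₗ[Dᵐᵒᵖ] (I → D) := δ.comp Vn.subtype
  let q : Vn →ₗ[Dᵐᵒᵖ] (I → D) := Vn.subtype - (K.subtype.comp p).comp Vn.subtype
  have hq : LinearMap.ker δ' ≤ LinearMap.ker q := by
    intro x hx
    rw [LinearMap.mem_ker] at hx ⊢
    have hxK : (x : I → D) ∈ K := ⟨x.2, hx⟩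
    have h1 : p x = ⟨x, hxK⟩ := LinearMap.congr_fun hp ⟨x, hxK⟩
    change (x : I → D) - (p x : I → D) = 0
    rw [h1, sub_self]
  obtain ⟨B, hB⟩ := LinearMap.exists_extend
    (((LinearMap.ker δ').liftQ q hq).comp δ'.quotKerEquivRange.symm.toLinearMap)
  have hB' : ∀ f ∈ Vn, B (δ f) = f - p f := by
    intro f hf
    have h1 := LinearMap.congr_fun hB ⟨δ f, ⟨⟨f, hf⟩, rfl⟩⟩
    have h2 : δ'.quotKerEquivRange.symm ⟨δ f, ⟨⟨f, hf⟩, rfl⟩⟩ =
        (LinearMap.ker δ').mkQ ⟨f, hf⟩ := by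
      rw [LinearEquiv.symm_apply_eq]
      rfl
    change B (δ f) = (LinearMap.ker δ').liftQ q hq (δ'.quotKerEquivRange.symm
      ⟨δ f, ⟨⟨f, hf⟩, rfl⟩⟩) at h1
    rw [h2] at h1
    exact h1
  -- the first map
  let A : (I → D) →ₗ[Dᵐᵒᵖ] (I → D) := T.subtype.comp (s.comp p)
  refine ⟨mat A, mat B, ?_, ?_⟩
  · intro j i hj
    exact (s (p (Pi.single i 1))).2.1 j hj
  · intro f hf
    rw [mat_mulVec, mat_mulVec]
    have h1 : δ (A f) = p f := by
      have h2 := LinearMap.congr_fun hs (p f)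
      exact congrArg Subtype.val h2
    have h3 := hB' f hf
    change δ (A f) + B (δ f) = f
    rw [h1, h3]
    abel

end

end Pool.Agent.HF.H52
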